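import Mathlib
import Pool.Agent.H10.AQ.Defs

set_option autoImplicit false

/-! Definitions for the theorem on Goldbach's problem in progressions with arbitrary first members (helper10). -/

namespace Pool.Agent.H10.LN

open Finset
open Pool.Agent.H10.AQ (Good)

/-- the sum of the prime factors of `m`, with multiplicities -/
def primeSum (m : ℕ) : ℕ := m.primeFactorsList.sum

/-- The even positive integer `n ≤ X` is not `Good`. -/
def Bad (X : ℝ) (W : ℕ) (n : ℤ) : Prop := 0 < n ∧ (n : ℝ) ≤ X ∧ Even n ∧ ¬ Good W n.toNat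

open Classical in
/-- The `m ≤ N` with a factorization `m = k v`, `v ≥ N ^ τ`, `α k + β ≥ 1`, for which `α m + β v + B k` is an even positive
integer of size at most `N (log N) ^ C` which is not `Good`. -/
noncomputable def exc (W : ℕ) (τ : ℝ) (C : ℕ) (α β : ℤ) (B : ℕ → ℤ) (N : ℕ) : Finset ℕ :=
  (Icc 1 N).filter (fun m => ∃ k v : ℕ, m = k * v ∧ (N : ℝ) ^ τ ≤ v ∧ 1 ≤ α * k + β ∧
    Bad (N * Real.log N ^ C) W (α * m + β * v + B k))

open Classical in
/-- The `m ≤ N` for which all numbers `α m + β S(m)`, `1 ≤ α ≤ R`, `|β| ≤ R`, `S = primeSum`, which are even and positive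
are `Good`. -/
noncomputable def sumGood (R W N : ℕ) : Finset ℕ :=
  (Icc 1 N).filter (fun m => ∀ α β : ℤ, 1 ≤ α → α ≤ R → |β| ≤ R → 0 < α * m + β * primeSum m →
    Even (α * m + β * primeSum m) → Good W (α * m + β * primeSum m).toNat)

end Pool.Agent.H10.LN
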