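import Pool.Graph.R_pool_sql_team_seeded_47a924f7.T6.H3.FR.Conv
import Pool.Graph.R_pool_sql_team_seeded_63374d34.N733.AQ.E

set_option autoImplicit false

/-! Families of arithmetic progressions with arbitrary first members and almost distinct differences (helper10). -/

namespace Pool.Agent.H10.LN

open Finset Classical Filter
open Pool.Agent.T6.H3.FF (WinM)

/-- the sum of the reciprocals of the positive integers up to `y`, over the multiples of `d` -/
lemma harm_mult (d K : ℕ) (hd : 1 ≤ d) :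
    ∑ q ∈ (Icc 1 K).filter (fun q => d ∣ q), (1 / q : ℝ) ≤ (1 + Real.log K) / d := by
  have hd0 : (0 : ℝ) < d := by exact_mod_cast hd
  have h1 : (Icc 1 K).filter (fun q => d ∣ q) ⊆ (Icc 1 K).image (fun j => d * j) := by
    intro q hq
    rw [mem_filter, mem_Icc] at hq
    obtain ⟨⟨h1, h2⟩, j, rfl⟩ := hq
    rw [mem_image]
    refine ⟨j, ?_, rfl⟩
    rw [mem_Icc]
    constructor
    · rcases Nat.eq_zero_or_pos j with h | h
      · rw [h, mul_zero] at h1
        omega
      · exact h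
    · exact (Nat.le_mul_of_pos_left j hd).trans h2
  calc ∑ q ∈ (Icc 1 K).filter (fun q => d ∣ q), (1 / q : ℝ) ≤ ∑ q ∈ (Icc 1 K).image (fun j => d * j), (1 / q : ℝ) :=
        sum_le_sum_of_subset_of_nonneg h1 (fun _ _ _ => by positivity)
    _ = ∑ j ∈ Icc 1 K, (1 / ((d * j : ℕ) : ℝ)) := by
        rw [sum_image]
        intro a _ b _ h
        exact Nat.eq_of_mul_eq_mul_left (by omega) h
    _ = (∑ j ∈ Icc 1 K, (1 / j : ℝ)) / d := by
        rw [sum_div]
        apply sum_congr rfl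
        intro j _
        push_cast
        rw [div_div, mul_comm]
    _ ≤ (1 + Real.log K) / d := div_le_div_of_nonneg_right (Pool.Agent.N733.AQ.harm K) hd0.le

/-- the number of the members of one progression -/
lemma line_card {x : ℝ} (hx : 0 ≤ x) (q : ℕ) (hq : 1 ≤ q) (b : ℤ) (V : Finset ℤ)
    (hV : ∀ v ∈ V, 0 < (q : ℤ) * v + b ∧ (((q : ℤ) * v + b : ℤ) : ℝ) ≤ x) : (V.card : ℝ) ≤ x / q + 1 := by
  have hq0 : (0 : ℝ) < q := by exact_mod_cast hq
  rcases V.eq_empty_or_nonempty with h | h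
  · rw [h, card_empty, Nat.cast_zero]
    positivity
  · have h1 := V.min'_mem h
    have h2 := V.max'_mem h
    obtain ⟨u, hu⟩ : ∃ u, u = V.min' h := ⟨_, rfl⟩
    obtain ⟨w, hw⟩ : ∃ w, w = V.max' h := ⟨_, rfl⟩
    rw [← hu] at h1
    rw [← hw] at h2
    have h3 : V ⊆ Icc u w := by
      intro v hv
      rw [mem_Icc, hu, hw]
      exact ⟨V.min'_le v hv, V.le_max' v hv⟩
    have h4 := card_le_card h3
    rw [Int.card_Icc] at h4
    have h5 := (hV u h1).1
    have h6 := (hV w h2).2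
    have huw : u ≤ w := by rw [hu, hw]; exact V.min'_le_max' h
    have h7 : ((w - u : ℤ) : ℝ) ≤ x / q := by
      rw [le_div_iff₀ hq0]
      have e1 : (0 : ℝ) < (q : ℝ) * u + b := by exact_mod_cast h5
      push_cast at h6 ⊢
      nlinarith
    have h8 : ((w + 1 - u).toNat : ℝ) = ((w - u : ℤ) : ℝ) + 1 := by
      have : ((w + 1 - u).toNat : ℤ) = w + 1 - u := Int.toNat_of_nonneg (by omega)
      have h9 : (((w + 1 - u).toNat : ℤ) : ℝ) = ((w + 1 - u : ℤ) : ℝ) := by rw [this]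
      rw [Int.cast_natCast] at h9
      rw [h9]
      push_cast
      ring
    calc (V.card : ℝ) ≤ ((w + 1 - u).toNat : ℝ) := by exact_mod_cast h4
      _ = ((w - u : ℤ) : ℝ) + 1 := h8
      _ ≤ x / q + 1 := by linarith

/-- **Families of progressions.** -/
theorem lines (Q : ℕ → Prop) (W : ℕ) (hQ : ∃ n₀ : ℕ, ∀ n : ℕ, n₀ ≤ n → 2 ∣ n → WinM W n → Q n)
    (ρ : ℝ) (hρ : 0 < ρ) (A C : ℕ) :
    ∃ x₀ : ℝ, ∀ x : ℝ, x₀ ≤ x → ∀ (I : Finset ℕ) (a : ℕ → ℕ) (b : ℕ → ℤ),
      (∀ k ∈ I, 1 ≤ a k ∧ (a k : ℝ) ≤ x ^ (4 / 5 - ρ)) →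
      (∀ q : ℕ, ((I.filter (fun k => a k = q)).card : ℝ) ≤ Real.log x ^ C) →
      ∀ V : ℕ → Finset ℤ, (∀ k ∈ I, ∀ v ∈ V k, 0 < (a k : ℤ) * v + b k ∧ (((a k : ℤ) * v + b k : ℤ) : ℝ) ≤ x ∧
        2 ∣ (a k : ℤ) * v + b k ∧ ¬ Q ((a k : ℤ) * v + b k).toNat) →
      ∑ k ∈ I, ((V k).card : ℝ) ≤ x / Real.log x ^ A := by
  obtain ⟨c, hc⟩ := Pool.Agent.T6.H3.FR.class_few_reg4 Q W hQ ρ hρ (A + C + 3)
  obtain ⟨x₁, hx₁⟩ := hc (A + C + c + 4)
  obtain ⟨x₂, hx₂⟩ := eventually_atTop.1 (Pool.Agent.R460.GS.real_log (A + C + c + 4) (s := 1 / 5) (by norm_num) 4)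
  refine ⟨max (max x₁ x₂) 1, fun x hx I a b ha hmult V hV => ?_⟩
  have hxx₁ : x₁ ≤ x := (le_max_left _ _).trans ((le_max_left _ _).trans hx)
  have hxx₂ : x₂ ≤ x := (le_max_right _ _).trans ((le_max_left _ _).trans hx)
  have hx1 : 1 ≤ x := (le_max_right _ _).trans hx
  obtain ⟨D, hDc, hDl, hD⟩ := hx₁ x hxx₁
  obtain ⟨hL4, hLp⟩ := hx₂ x hxx₂
  obtain ⟨L, hL⟩ : ∃ L, L = Real.log x := ⟨_, rfl⟩
  rw [← hL] at hL4 hLp hDc hDl hmult ⊢
  have hx0 : 0 < x := by linarith
  have hL0 : 0 < L := by linarith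
  have hL1 : 1 ≤ L := by linarith
  obtain ⟨K, hK⟩ : ∃ K : ℕ, K = ⌊x ^ (4 / 5 - ρ)⌋₊ := ⟨_, rfl⟩
  have hKx : (K : ℝ) ≤ x ^ (4 / 5 - ρ) := by rw [hK]; exact Nat.floor_le (by positivity)
  have hKx' : (K : ℝ) ≤ x ^ (4 / 5 : ℝ) :=
    hKx.trans (Real.rpow_le_rpow_of_exponent_le hx1 (by linarith))
  have hlogK : 1 + Real.log K ≤ 2 * L := by
    rcases Nat.eq_zero_or_pos K with h | h
    · rw [h, Nat.cast_zero, Real.log_zero]
      linarith
    · have h1 : Real.log K ≤ Real.log (x ^ (4 / 5 : ℝ)) := Real.log_le_log (by exact_mod_cast h) hKx'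
      rw [Real.log_rpow hx0, ← hL] at h1
      linarith
  have haK : ∀ k ∈ I, a k ∈ Icc 1 K := by
    intro k hk
    rw [mem_Icc, hK]
    exact ⟨(ha k hk).1, Nat.le_floor (ha k hk).2⟩
  -- the sums over the differences
  have hfib : ∀ g : ℕ → ℝ, (∀ q, 0 ≤ g q) → ∀ p : ℕ → Prop, ∑ k ∈ I.filter (fun k => p (a k)), g (a k) ≤
      L ^ C * ∑ q ∈ (Icc 1 K).filter p, g q := by
    intro g hg p
    have h1 : ∑ k ∈ I.filter (fun k => p (a k)), g (a k) =
        ∑ q ∈ (Icc 1 K).filter p, ∑ k ∈ (I.filter (fun k => p (a k))).filter (fun k => a k = q), g (a k) := by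
      rw [sum_fiberwise_of_maps_to]
      intro k hk
      rw [mem_filter] at hk ⊢
      exact ⟨haK k hk.1, hk.2⟩
    rw [h1, mul_sum]
    apply sum_le_sum
    intro q _
    have h2 : ∑ k ∈ (I.filter (fun k => p (a k))).filter (fun k => a k = q), g (a k) =
        ((I.filter (fun k => p (a k))).filter (fun k => a k = q)).card * g q := by
      rw [← nsmul_eq_mul, ← sum_const]
      apply sum_congr rfl
      intro k hk
      rw [(mem_filter.1 hk).2]
    rw [h2]
    apply mul_le_mul_of_nonneg_right _ (hg q)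
    refine le_trans ?_ (hmult q)
    rw [Nat.cast_le]
    apply card_le_card
    intro k hk
    rw [mem_filter, mem_filter] at hk
    rw [mem_filter]
    exact ⟨hk.1.1, hk.2⟩
  -- the regular differences
  obtain ⟨R, hR⟩ : ∃ R : ℕ → Prop, R = fun q => ∀ d ∈ D, ¬ d ∣ q := ⟨_, rfl⟩
  have hreg : ∀ k ∈ I.filter (fun k => R (a k)), ((V k).card : ℝ) ≤ (x / L ^ (A + C + 3)) * (1 / (a k : ℝ)) := by
    intro k hk
    rw [mem_filter, hR] at hk
    obtain ⟨hkI, hkR⟩ := hk
    obtain ⟨hfin, hcard⟩ := hD (a k) (ha k hkI).1 (ha k hkI).2 hkR (b k)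
    have hak : 0 < a k := (ha k hkI).1
    rw [← hL] at hcard
    have h1 : ((V k).image (fun v : ℤ => ((a k : ℤ) * v + b k).toNat)).card = (V k).card := by
      apply card_image_of_injOn
      intro v hv w hw h
      have e1 := (hV k hkI v hv).1
      have e2 := (hV k hkI w hw).1
      simp only at h
      have e3 : (a k : ℤ) * v + b k = (a k : ℤ) * w + b k := by omega
      have e4 : (a k : ℤ) * v = (a k : ℤ) * w := by linarith
      exact mul_left_cancel₀ (by exact_mod_cast (by omega : a k ≠ 0)) e4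
    have h2 : (((V k).image (fun v : ℤ => ((a k : ℤ) * v + b k).toNat)) : Set ℕ).ncard ≤
        ({n : ℕ | 0 < n ∧ (n : ℝ) ≤ x ∧ 2 ∣ n ∧ (n : ℤ) ≡ b k [ZMOD a k] ∧ ¬ Q n}).ncard := by
      apply Set.ncard_le_ncard _ hfin
      intro n hn
      rw [mem_coe, mem_image] at hn
      obtain ⟨v, hv, rfl⟩ := hn
      obtain ⟨e1, e2, e3, e4⟩ := hV k hkI v hv
      have e5 : ((((a k : ℤ) * v + b k).toNat : ℕ) : ℤ) = (a k : ℤ) * v + b k := Int.toNat_of_nonneg e1.le
      refine ⟨by omega, ?_, by omega, ?_, e4⟩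
      · have e6 : ((((a k : ℤ) * v + b k).toNat : ℕ) : ℝ) = (((a k : ℤ) * v + b k : ℤ) : ℝ) := by
          rw [← Int.cast_natCast, e5]
        rw [e6]
        exact e2
      · rw [e5, Int.modEq_iff_dvd]
        exact ⟨-v, by ring⟩
    rw [Set.ncard_coe_finset, h1] at h2
    have h3 : ((V k).card : ℝ) ≤ x / (a k * L ^ (A + C + 3)) := le_trans (by exact_mod_cast h2) hcard
    refine h3.trans (le_of_eq ?_)
    have : (0 : ℝ) < a k := by exact_mod_cast hak
    field_simp
  have hS1 : ∑ k ∈ I.filter (fun k => R (a k)), ((V k).card : ℝ) ≤ x / L ^ (A + 1) / 2 := by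
    refine (sum_le_sum hreg).trans ?_
    rw [← mul_sum]
    have h1 := hfib (fun q => 1 / (q : ℝ)) (fun q => by positivity) R
    have h2 : ∑ q ∈ (Icc 1 K).filter R, (1 / q : ℝ) ≤ 2 * L := by
      refine le_trans (sum_le_sum_of_subset_of_nonneg (filter_subset _ _) (fun _ _ _ => by positivity)) ?_
      exact (Pool.Agent.N733.AQ.harm K).trans hlogK
    have h3 : ∑ k ∈ I.filter (fun k => R (a k)), (1 / (a k : ℝ)) ≤ L ^ C * (2 * L) :=
      h1.trans (mul_le_mul_of_nonneg_left h2 (by positivity))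
    calc x / L ^ (A + C + 3) * ∑ k ∈ I.filter (fun k => R (a k)), (1 / (a k : ℝ)) ≤
        x / L ^ (A + C + 3) * (L ^ C * (2 * L)) := mul_le_mul_of_nonneg_left h3 (by positivity)
      _ = x / L ^ (A + 1) * (2 / L) := by
          rw [show A + C + 3 = (A + 1) + C + 2 by ring, pow_add L (A + 1 + C) 2, pow_add L (A + 1) C]
          field_simp
      _ ≤ x / L ^ (A + 1) * (1 / 2) := by
          apply mul_le_mul_of_nonneg_left _ (by positivity)
          rw [div_le_div_iff₀ hL0 (by norm_num)]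
          linarith
      _ = x / L ^ (A + 1) / 2 := by ring
  -- the other differences
  have hirr : ∀ k ∈ I.filter (fun k => ¬ R (a k)), ((V k).card : ℝ) ≤ x / a k + 1 := by
    intro k hk
    rw [mem_filter] at hk
    exact line_card hx0.le (a k) (ha k hk.1).1 (b k) (V k) (fun v hv => ⟨(hV k hk.1 v hv).1, (hV k hk.1 v hv).2.1⟩)
  have hS2 : ∑ k ∈ I.filter (fun k => ¬ R (a k)), ((V k).card : ℝ) ≤ x / L ^ A / 2 := by
    refine (sum_le_sum hirr).trans ?_
    have h1 : ∑ k ∈ I.filter (fun k => ¬ R (a k)), (x / (a k : ℝ) + 1) ≤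
        L ^ C * ∑ q ∈ (Icc 1 K).filter (fun q => ¬ R q), (x / (q : ℝ) + 1) := by
      convert hfib (fun q => x / (q : ℝ) + 1) (fun q => by positivity) (fun q => ¬ R q) using 2 <;> congr!
    refine h1.trans ?_
    have h2 : (Icc 1 K).filter (fun q => ¬ R q) ⊆ D.biUnion (fun d => (Icc 1 K).filter (fun q => d ∣ q)) := by
      intro q hq
      rw [mem_filter, hR] at hq
      obtain ⟨h1, h2⟩ := hq
      push Not at h2
      obtain ⟨d, hd, hdq⟩ := h2
      rw [mem_biUnion]
      exact ⟨d, hd, mem_filter.2 ⟨h1, hdq⟩⟩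
    have h3 : ∑ q ∈ (Icc 1 K).filter (fun q => ¬ R q), (x / (q : ℝ) + 1) ≤
        ∑ d ∈ D, ∑ q ∈ (Icc 1 K).filter (fun q => d ∣ q), (x / (q : ℝ) + 1) := by
      refine (sum_le_sum_of_subset_of_nonneg h2 (fun _ _ _ => by positivity)).trans ?_
      have key : ∀ D' : Finset ℕ, ∑ q ∈ D'.biUnion (fun d => (Icc 1 K).filter (fun q => d ∣ q)), (x / (q : ℝ) + 1) ≤
          ∑ d ∈ D', ∑ q ∈ (Icc 1 K).filter (fun q => d ∣ q), (x / (q : ℝ) + 1) := by
        intro D'
        induction D' using Finset.induction_on with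
        | empty => simp
        | insert d D' hd ih =>
          rw [biUnion_insert, sum_insert hd]
          have e1 := sum_union_inter (s₁ := (Icc 1 K).filter (fun q => d ∣ q))
            (s₂ := D'.biUnion (fun d => (Icc 1 K).filter (fun q => d ∣ q))) (f := fun q : ℕ => (x / (q : ℝ) + 1))
          have e2 : 0 ≤ ∑ q ∈ (Icc 1 K).filter (fun q => d ∣ q) ∩
            D'.biUnion (fun d => (Icc 1 K).filter (fun q => d ∣ q)), (x / (q : ℝ) + 1) :=
            sum_nonneg (fun _ _ => by positivity)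
          linarith
      exact key D
    have h4 : ∀ d ∈ D, ∑ q ∈ (Icc 1 K).filter (fun q => d ∣ q), (x / (q : ℝ) + 1) ≤
        x * (2 * L) / L ^ (A + C + c + 4) + x ^ (4 / 5 : ℝ) := by
      intro d hd
      have hdl := hDl d hd
      have hLp0 : 0 < L ^ (A + C + c + 4) := by positivity
      have hd0 : (0 : ℝ) < d := by linarith
      have hd1 : 1 ≤ d := by exact_mod_cast hd0
      rw [sum_add_distrib]
      apply add_le_add
      · have e1 : ∑ q ∈ (Icc 1 K).filter (fun q => d ∣ q), (x / (q : ℝ)) =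
            x * ∑ q ∈ (Icc 1 K).filter (fun q => d ∣ q), (1 / q : ℝ) := by
          rw [mul_sum]
          apply sum_congr rfl
          intro q _
          ring
        rw [e1]
        have e2 := harm_mult d K hd1
        calc x * ∑ q ∈ (Icc 1 K).filter (fun q => d ∣ q), (1 / q : ℝ) ≤ x * ((1 + Real.log K) / d) :=
              mul_le_mul_of_nonneg_left e2 hx0.le
          _ ≤ x * (2 * L / L ^ (A + C + c + 4)) := by
              apply mul_le_mul_of_nonneg_left _ hx0.le
              exact div_le_div₀ (by positivity) hlogK hLp0 hdl.le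
          _ = x * (2 * L) / L ^ (A + C + c + 4) := by ring
      · rw [sum_const, nsmul_eq_mul, mul_one]
        refine le_trans ?_ hKx'
        have := card_filter_le (Icc 1 K) (fun q => d ∣ q)
        rw [Nat.card_Icc, Nat.add_sub_cancel] at this
        exact_mod_cast this
    have h5 : ∑ q ∈ (Icc 1 K).filter (fun q => ¬ R q), (x / (q : ℝ) + 1) ≤
        L ^ c * (x * (2 * L) / L ^ (A + C + c + 4) + x ^ (4 / 5 : ℝ)) := by
      refine h3.trans ((sum_le_sum h4).trans ?_)
      rw [sum_const, nsmul_eq_mul]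
      exact mul_le_mul_of_nonneg_right hDc (by positivity)
    calc L ^ C * ∑ q ∈ (Icc 1 K).filter (fun q => ¬ R q), (x / (q : ℝ) + 1) ≤
        L ^ C * (L ^ c * (x * (2 * L) / L ^ (A + C + c + 4) + x ^ (4 / 5 : ℝ))) :=
          mul_le_mul_of_nonneg_left h5 (by positivity)
      _ = x / L ^ A * (2 / L ^ 3) + L ^ (C + c) * x ^ (4 / 5 : ℝ) := by
          rw [show A + C + c + 4 = A + C + c + 3 + 1 by ring, pow_add L (A + C + c + 3) 1, pow_add L (A + C + c) 3,
            pow_add L (A + C) c, pow_add L A C, pow_add L C c]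
          field_simp
      _ ≤ x / L ^ A * (1 / 4) + x / L ^ A * (1 / 4) := by
          apply add_le_add
          · apply mul_le_mul_of_nonneg_left _ (by positivity)
            rw [div_le_div_iff₀ (by positivity) (by norm_num)]
            have : 4 ^ 3 ≤ L ^ 3 := pow_le_pow_left₀ (by norm_num) hL4 3
            linarith
          · have e1 : L ^ (A + C + c + 4) * x ^ (4 / 5 : ℝ) ≤ x := by
              calc L ^ (A + C + c + 4) * x ^ (4 / 5 : ℝ) ≤ x ^ (1 / 5 : ℝ) * x ^ (4 / 5 : ℝ) :=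
                    mul_le_mul_of_nonneg_right hLp (by positivity)
                _ = x := by rw [← Real.rpow_add hx0]; norm_num
            have e2 : 4 * L ^ (A + (C + c)) ≤ L ^ (A + C + c + 4) := by
              calc 4 * L ^ (A + (C + c)) ≤ L * L ^ (A + (C + c)) := mul_le_mul_of_nonneg_right hL4 (by positivity)
                _ = L ^ (A + C + c + 1) := by ring
                _ ≤ L ^ (A + C + c + 4) := pow_le_pow_right₀ hL1 (by omega)
            have e3 : 4 * L ^ (A + (C + c)) * x ^ (4 / 5 : ℝ) ≤ x :=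
              le_trans (mul_le_mul_of_nonneg_right e2 (by positivity)) e1
            rw [div_mul_div_comm, mul_one, le_div_iff₀ (by positivity)]
            calc L ^ (C + c) * x ^ (4 / 5 : ℝ) * (L ^ A * 4) = 4 * L ^ (A + (C + c)) * x ^ (4 / 5 : ℝ) := by ring
              _ ≤ x := e3
      _ = x / L ^ A / 2 := by ring
  have hS3 : x / L ^ (A + 1) / 2 ≤ x / L ^ A / 2 := by
    apply div_le_div_of_nonneg_right _ (by norm_num)
    exact div_le_div_of_nonneg_left hx0.le (by positivity) (pow_le_pow_right₀ hL1 (by omega))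
  rw [← sum_filter_add_sum_filter_not I (fun k => R (a k))]
  linarith

end Pool.Agent.H10.LN
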