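import Pool.Agent.H10.LN.Defs
import Pool.Agent.H10.LN.Lines
import Pool.Agent.H10.AQ.Main

set_option autoImplicit false

/-! Goldbach's problem for `α m + β v + B (m / v)` and for the sums of prime factors (helper10). -/

namespace Pool.Agent.H10.LN

open Finset Classical Filter
open Pool.Agent.H10.AQ (Good Lower Solved Sm SB sb_five)

lemma good_of (W : ℕ) : ∃ n₀ : ℕ, ∀ n : ℕ, n₀ ≤ n → 2 ∣ n → Pool.Agent.T6.H3.FF.WinM (W + 1) n → Good W n := by
  obtain ⟨n₀, hn₀⟩ := Pool.Agent.H10.AQ.solved_of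
  refine ⟨n₀ + 3, fun n hn h2 hw => ?_⟩
  have hw1 : Lower (W + 1) n := hw
  refine ⟨hn₀ n (by omega) (even_iff_two_dvd.2 h2) (Pool.Agent.H10.AQ.winM_one (by omega) hw1), ?_⟩
  intro y₁ y₂ h1 h2 h3
  refine hw1 y₁ y₂ h1 h2 (le_trans ?_ h3)
  have hn3 : (3 : ℝ) ≤ n := by exact_mod_cast (by omega : 3 ≤ n)
  have hL1 : 1 ≤ Real.log (n : ℝ) := by
    rw [Real.le_log_iff_exp_le (by linarith)]
    have := Real.exp_one_lt_d9
    linarith
  exact div_le_div_of_nonneg_left (Nat.cast_nonneg _) (by positivity) (pow_le_pow_right₀ hL1 (by omega))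

/-- families of progressions -/
theorem family (W : ℕ) (ρ : ℝ) (hρ : 0 < ρ) (A C : ℕ) :
    ∃ x₀ : ℝ, ∀ x : ℝ, x₀ ≤ x → ∀ (I : Finset ℕ) (a : ℕ → ℕ) (b : ℕ → ℤ),
      (∀ k ∈ I, 1 ≤ a k ∧ (a k : ℝ) ≤ x ^ (4 / 5 - ρ)) →
      (∀ q : ℕ, ((I.filter (fun k => a k = q)).card : ℝ) ≤ Real.log x ^ C) →
      ∀ V : ℕ → Finset ℤ, (∀ k ∈ I, ∀ v ∈ V k, Bad x W ((a k : ℤ) * v + b k)) →
      ∑ k ∈ I, ((V k).card : ℝ) ≤ x / Real.log x ^ A := by
  obtain ⟨x₀, hx₀⟩ := lines (Good W) (W + 1) (good_of W) ρ hρ A C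
  refine ⟨x₀, fun x hx I a b ha hm V hV => hx₀ x hx I a b ha (fun q => ?_) V (fun k hk v hv => ?_)⟩
  · convert hm q
  · obtain ⟨h1, h2, h3, h4⟩ := hV k hk v hv
    exact ⟨h1, h2, even_iff_two_dvd.1 h3, h4⟩

theorem factor (W : ℕ) (ρ : ℝ) (hρ : 0 < ρ) (A C : ℕ) (α β : ℤ) (hα : 1 ≤ α) :
    ∃ N₀ : ℕ, ∀ N : ℕ, N₀ ≤ N → ∀ B : ℕ → ℤ,
      ((exc W (1 / 5 + ρ) C α β B N).card : ℝ) ≤ N / Real.log N ^ A := by
  obtain ⟨x₀, hx₀⟩ := family W (ρ / 2) (by linarith) (A + C) 0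
  obtain ⟨γ, hγ⟩ : ∃ γ : ℝ, γ = |(α : ℝ)| + |(β : ℝ)| := ⟨_, rfl⟩
  have hγ0 : 0 ≤ γ := by rw [hγ]; positivity
  obtain ⟨x₁, hx₁⟩ := eventually_atTop.1 (Pool.Agent.R460.GS.real_log 1 (s := ρ / 2) (by linarith)
    (γ + 1 + |x₀|))
  obtain ⟨n₁, hn₁⟩ := exists_nat_ge (max x₁ x₀)
  refine ⟨n₁ + 3, fun N hN B => ?_⟩
  have hNr : max x₁ x₀ ≤ (N : ℝ) := hn₁.trans (by exact_mod_cast (by omega : n₁ ≤ N))
  obtain ⟨hL, hLp⟩ := hx₁ N (le_trans (le_max_left _ _) hNr)
  obtain ⟨L, hLd⟩ : ∃ L, L = Real.log N := ⟨_, rfl⟩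
  rw [← hLd] at hL hLp ⊢
  have hx₀0 : 0 ≤ |x₀| := abs_nonneg _
  have hL1 : 1 ≤ L := by linarith
  have hL0 : 0 < L := by linarith
  have hN3 : (3 : ℝ) ≤ N := by exact_mod_cast (by omega : 3 ≤ N)
  have hN0 : (0 : ℝ) < N := by linarith
  have hN1 : (1 : ℝ) ≤ N := by linarith
  obtain ⟨X, hX⟩ : ∃ X : ℝ, X = N * L ^ C := ⟨_, rfl⟩
  have hLC : 1 ≤ L ^ C := one_le_pow₀ hL1
  have hNX : (N : ℝ) ≤ X := by rw [hX]; exact le_mul_of_one_le_right hN0.le hLC
  have hX0 : 0 < X := by linarith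
  have hX1 : 1 ≤ X := by linarith
  have hlogX : L ≤ Real.log X := by rw [hLd]; exact Real.log_le_log hN0 hNX
  -- the family
  obtain ⟨I, hI⟩ : ∃ I : Finset ℕ, I = (Icc 1 N).filter (fun k : ℕ => 1 ≤ α * k + β ∧
    (k : ℝ) ≤ (N : ℝ) ^ (4 / 5 - ρ)) := ⟨_, rfl⟩
  obtain ⟨a, ha⟩ : ∃ a : ℕ → ℕ, a = fun k : ℕ => (α * k + β).toNat := ⟨_, rfl⟩
  have haI : ∀ k ∈ I, ((a k : ℕ) : ℤ) = α * k + β := by
    intro k hk
    rw [hI, mem_filter] at hk
    rw [ha]
    exact Int.toNat_of_nonneg (by omega)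
  obtain ⟨V, hV⟩ : ∃ V : ℕ → Finset ℤ, V = fun k => ((Icc 1 N).filter (fun v : ℕ => k * v ≤ N ∧
    Bad X W (α * (k * v : ℕ) + β * v + B k))).image (fun v : ℕ => (v : ℤ)) := ⟨_, rfl⟩
  have hsum := hx₀ X ((le_trans (le_max_right _ _) hNr).trans hNX) I a B (by
    intro k hk
    have hak := haI k hk
    have hk' := hk
    rw [hI, mem_filter, mem_Icc] at hk'
    obtain ⟨⟨k1, k2⟩, k3, k4⟩ := hk'
    have hk1 : (1 : ℝ) ≤ k := by exact_mod_cast k1
    refine ⟨by omega, ?_⟩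
    have e1 : (a k : ℝ) = α * k + β := by exact_mod_cast hak
    have e2 : (a k : ℝ) ≤ γ * k := by
      rw [e1, hγ, add_mul]
      apply add_le_add
      · exact mul_le_mul_of_nonneg_right (le_abs_self _) (by linarith)
      · calc (β : ℝ) ≤ |(β : ℝ)| := le_abs_self _
          _ ≤ |(β : ℝ)| * k := le_mul_of_one_le_right (abs_nonneg _) hk1
    calc (a k : ℝ) ≤ γ * k := e2
      _ ≤ (N : ℝ) ^ (ρ / 2) * (N : ℝ) ^ (4 / 5 - ρ) := by
          apply mul_le_mul _ k4 (by linarith) (by positivity)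
          rw [pow_one] at hLp
          linarith
      _ = (N : ℝ) ^ (4 / 5 - ρ / 2) := by rw [← Real.rpow_add hN0]; congr 1; ring
      _ ≤ X ^ (4 / 5 - ρ / 2) := by
          rcases le_or_gt 0 (4 / 5 - ρ / 2) with h | h
          · exact Real.rpow_le_rpow hN0.le hNX h
          · exfalso
            have e3 : (N : ℝ) ^ (4 / 5 - ρ) < 1 := by
              apply Real.rpow_lt_one_of_one_lt_of_neg (by linarith) (by linarith)
            linarith) (by
    intro q
    rw [pow_zero]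
    have : (I.filter (fun k => a k = q)).card ≤ 1 := by
      rw [card_le_one]
      intro k hk l hl
      rw [mem_filter] at hk hl
      have e1 := haI k hk.1
      have e2 := haI l hl.1
      rw [hk.2] at e1
      rw [hl.2] at e2
      have e3 : α * ((k : ℤ) - l) = 0 := by
        have : α * (k : ℤ) = α * l := by linarith
        rw [mul_sub, this, sub_self]
      rcases mul_eq_zero.1 e3 with h | h
      · omega
      · have : (k : ℤ) = l := by linarith
        exact_mod_cast this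
    exact_mod_cast this) V (by
    intro k hk v hv
    rw [hV, mem_image] at hv
    obtain ⟨w, hw, rfl⟩ := hv
    rw [mem_filter] at hw
    obtain ⟨-, -, h2⟩ := hw
    rw [haI k hk]
    have : (α * k + β) * (w : ℤ) + B k = α * ((k * w : ℕ) : ℤ) + β * w + B k := by push_cast; ring
    rw [this]
    exact h2)
  have hsub : exc W (1 / 5 + ρ) C α β B N ⊆ I.biUnion (fun k => (V k).image (fun v : ℤ => (k * v.toNat))) := by
    intro m hm
    rw [exc, mem_filter, mem_Icc] at hm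
    obtain ⟨⟨m1, m2⟩, k, v, rfl, h1, h2, h3⟩ := hm
    have hk0 : 0 < k := Nat.pos_of_mul_pos_right (by omega : 0 < k * v)
    have hv0 : 0 < v := Nat.pos_of_mul_pos_left (by omega : 0 < k * v)
    have hvr : (0 : ℝ) < v := by exact_mod_cast hv0
    rw [mem_biUnion]
    refine ⟨k, ?_, ?_⟩
    · rw [hI, mem_filter, mem_Icc]
      refine ⟨⟨hk0, (Nat.le_mul_of_pos_right k hv0).trans m2⟩, h2, ?_⟩
      have e1 : (k : ℝ) * v ≤ N := by exact_mod_cast m2
      have e2 : (k : ℝ) * (N : ℝ) ^ (1 / 5 + ρ) ≤ N := by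
        refine le_trans ?_ e1
        exact mul_le_mul_of_nonneg_left h1 (Nat.cast_nonneg _)
      rw [show (4 / 5 - ρ : ℝ) = 1 - (1 / 5 + ρ) by ring, Real.rpow_sub hN0, Real.rpow_one,
        le_div_iff₀ (by positivity)]
      exact e2
    · rw [mem_image]
      refine ⟨(v : ℤ), ?_, by rw [Int.toNat_natCast]⟩
      rw [hV, mem_image]
      refine ⟨v, ?_, rfl⟩
      rw [mem_filter, mem_Icc]
      refine ⟨⟨hv0, (Nat.le_mul_of_pos_left v hk0).trans m2⟩, m2, ?_⟩
      rw [hX, hLd]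
      exact h3
  have hcard : ((exc W (1 / 5 + ρ) C α β B N).card : ℝ) ≤ ∑ k ∈ I, ((V k).card : ℝ) := by
    have h1 := (card_le_card hsub).trans (card_biUnion_le.trans (sum_le_sum (fun k _ => card_image_le)))
    exact_mod_cast h1
  refine hcard.trans (hsum.trans ?_)
  calc X / Real.log X ^ (A + C) ≤ X / L ^ (A + C) :=
        div_le_div_of_nonneg_left hX0.le (by positivity) (pow_le_pow_left₀ hL0.le hlogX _)
    _ = N / L ^ A := by
        rw [hX, pow_add]
        field_simp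

lemma list_sum_le_prod : ∀ l : List ℕ, (∀ p ∈ l, 2 ≤ p) → l ≠ [] → l.sum ≤ l.prod := by
  intro l
  induction l with
  | nil => intro _ h; exact absurd rfl h
  | cons p l ih =>
    intro h _
    rw [List.sum_cons, List.prod_cons]
    have hp := h p (List.mem_cons_self)
    by_cases hl : l = []
    · rw [hl]
      simp
    · have h1 := ih (fun q hq => h q (List.mem_cons_of_mem _ hq)) hl
      have h2 : 2 ≤ l.prod := by
        obtain ⟨q, l', rfl⟩ := List.exists_cons_of_ne_nil hl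
        have hq := h q (by simp)
        rw [List.prod_cons]
        have h3 : 1 ≤ l'.prod := by
          apply Nat.one_le_iff_ne_zero.2
          apply List.prod_ne_zero
          intro h0
          have := h 0 (by simp [h0])
          omega
        calc 2 = 2 * 1 := rfl
          _ ≤ q * l'.prod := Nat.mul_le_mul hq h3
      nlinarith

lemma primeSum_le (m : ℕ) (hm : 1 ≤ m) : primeSum m ≤ m := by
  unfold primeSum
  rcases Nat.eq_or_lt_of_le hm with h | h
  · rw [← h]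
    simp
  · have h1 := list_sum_le_prod m.primeFactorsList (fun p hp => (Nat.prime_of_mem_primeFactorsList hp).two_le) (by
      intro h0
      have := (Nat.primeFactorsList_eq_nil m).1 h0
      omega)
    rw [Nat.prod_primeFactorsList (by omega)] at h1
    exact h1

lemma primeSum_mul (k p : ℕ) (hk : k ≠ 0) (hp : p.Prime) : primeSum (k * p) = primeSum k + p := by
  unfold primeSum
  have h1 := Nat.perm_primeFactorsList_mul hk hp.ne_zero
  rw [h1.sum_eq, List.sum_append, Nat.primeFactorsList_prime hp]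
  simp

theorem sums (R W : ℕ) : ∃ N₀ : ℕ, ∀ N : ℕ, N₀ ≤ N → 999 / 1000 * (N : ℝ) ≤ ((sumGood R W N).card : ℝ) := by
  obtain ⟨ρ, hρd⟩ : ∃ ρ : ℝ, ρ = 1 / 50000 := ⟨_, rfl⟩
  have hρ : 0 < ρ := by rw [hρd]; norm_num
  obtain ⟨P, hP⟩ : ∃ P : Finset (ℤ × ℤ), P = Icc (1 : ℤ) R ×ˢ Icc (-(R : ℤ)) R := ⟨_, rfl⟩
  have hfac : ∀ z ∈ P, ∃ N₀ : ℕ, ∀ N : ℕ, N₀ ≤ N → ∀ B : ℕ → ℤ,
      ((exc W (1 / 5 + ρ) 1 z.1 z.2 B N).card : ℝ) ≤ N / Real.log N ^ 1 := by
    intro z hz
    rw [hP, mem_product, mem_Icc] at hz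
    exact factor W ρ hρ 1 1 z.1 z.2 hz.1.1
  choose! M hM using hfac
  obtain ⟨X₀, hX₀⟩ := sb_five (1 / 100000) (by norm_num)
  have hlog := (Real.tendsto_log_atTop.comp (tendsto_natCast_atTop_atTop (R := ℝ))).eventually_ge_atTop
    (100000 * (P.card : ℝ) + 2 * R + 1)
  rw [eventually_atTop] at hlog
  obtain ⟨n₁, hn₁⟩ := hlog
  obtain ⟨n₂, hn₂⟩ := exists_nat_ge X₀
  refine ⟨n₁ + n₂ + ∑ z ∈ P, M z + 3, fun N hN => ?_⟩
  have hN3 : (3 : ℝ) ≤ N := by exact_mod_cast (by omega : 3 ≤ N)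
  have hN0 : (0 : ℝ) < N := by linarith
  have hN1 : (1 : ℝ) < N := by linarith
  obtain ⟨L, hLd⟩ : ∃ L, L = Real.log (N : ℝ) := ⟨_, rfl⟩
  have hL : 100000 * (P.card : ℝ) + 2 * R + 1 ≤ L := by rw [hLd]; exact hn₁ N (by omega)
  have hR0 : (0 : ℝ) ≤ R := Nat.cast_nonneg _
  have hP0 : (0 : ℝ) ≤ P.card := Nat.cast_nonneg _
  have hL0 : 0 < L := by linarith
  have hsm := hX₀ N (hn₂.trans (by exact_mod_cast (by omega : n₂ ≤ N)))
  have hsub : Icc 1 N ⊆ (sumGood R W N ∪ Sm N ((N : ℝ) ^ (1 / (4999 / 1000) : ℝ))) ∪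
      P.biUnion (fun z => exc W (1 / 5 + ρ) 1 z.1 z.2 (fun k => z.2 * primeSum k) N) := by
    intro m hm
    rw [mem_union, mem_union]
    by_contra hcon
    push Not at hcon
    obtain ⟨⟨h1, h2⟩, h3⟩ := hcon
    obtain ⟨m1, m2⟩ := mem_Icc.1 hm
    rw [sumGood, mem_filter] at h1
    push Not at h1
    obtain ⟨α, β, g1, g2, g3, g4, g5, g6⟩ := h1 hm
    rw [Sm, mem_filter, Nat.floor_natCast] at h2
    push Not at h2
    obtain ⟨p, hp, hpm, hpN⟩ := h2 hm
    obtain ⟨k, hk⟩ := hpm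
    have hk0 : k ≠ 0 := by
      rintro rfl
      rw [mul_zero] at hk
      omega
    have hmk : m = k * p := by rw [hk, mul_comm]
    apply h3
    rw [mem_biUnion]
    refine ⟨(α, β), ?_, ?_⟩
    · rw [hP, mem_product, mem_Icc, mem_Icc]
      have := abs_le.1 g3
      exact ⟨⟨g1, g2⟩, this.1, this.2⟩
    · rw [exc, mem_filter]
      have hS : primeSum m = primeSum k + p := by rw [hmk]; exact primeSum_mul k p hk0 hp
      have hSm : (primeSum m : ℝ) ≤ m := by exact_mod_cast primeSum_le m m1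
      have e1 : α * (m : ℤ) + β * p + β * primeSum k = α * m + β * primeSum m := by
        rw [hS]
        push_cast
        ring
      have hkr : (1 : ℤ) ≤ k := by exact_mod_cast Nat.one_le_iff_ne_zero.2 hk0
      have hp1 : (1 : ℤ) ≤ p := by exact_mod_cast hp.one_lt.le
      refine ⟨hm, k, p, hmk, ?_, ?_, ?_⟩
      · refine le_trans ?_ hpN.le
        apply Real.rpow_le_rpow_of_exponent_le hN1.le
        rw [hρd]
        norm_num
      · show 1 ≤ α * (k : ℤ) + β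
        by_contra hneg
        push Not at hneg
        have hneg' : α * k + β ≤ 0 := by omega
        have hβ : β ≤ 0 := by
          have : 0 < α * k := by positivity
          omega
        have e2 : α * (m : ℤ) + β * primeSum m = (α * k + β) * p + β * primeSum k := by
          rw [hS, hmk]
          push_cast
          ring
        have e3 : (α * k + β) * (p : ℤ) ≤ 0 := mul_nonpos_of_nonpos_of_nonneg hneg' (by omega)
        have e4 : β * (primeSum k : ℤ) ≤ 0 := mul_nonpos_of_nonpos_of_nonneg hβ (Int.natCast_nonneg _)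
        omega
      · simp only
        rw [e1]
        refine ⟨g4, ?_, g5, g6⟩
        rw [pow_one, ← hLd]
        push_cast
        have hmN : (m : ℝ) ≤ N := by exact_mod_cast m2
        have hm0 : (0 : ℝ) ≤ m := Nat.cast_nonneg _
        have a1 : (α : ℝ) * m ≤ R * N := by
          have : (α : ℝ) ≤ R := by exact_mod_cast g2
          exact mul_le_mul this hmN hm0 hR0
        have a2 : (β : ℝ) * primeSum m ≤ R * N := by
          have b1 : (β : ℝ) ≤ R := by
            have := (abs_le.1 g3).2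
            exact_mod_cast this
          have b2 : (0 : ℝ) ≤ primeSum m := Nat.cast_nonneg _
          exact mul_le_mul b1 (hSm.trans hmN) b2 hR0
        calc (α : ℝ) * m + β * primeSum m ≤ N * (2 * R) := by linarith
          _ ≤ N * L := mul_le_mul_of_nonneg_left (by linarith) hN0.le
  have h1 := (card_le_card hsub).trans ((card_union_le _ _).trans (Nat.add_le_add (card_union_le _ _) card_biUnion_le))
  rw [Nat.card_Icc, Nat.add_sub_cancel] at h1
  have h2 : (N : ℝ) ≤ ((sumGood R W N).card : ℝ) + ((Sm N ((N : ℝ) ^ (1 / (4999 / 1000) : ℝ))).card : ℝ) +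
      ∑ z ∈ P, ((exc W (1 / 5 + ρ) 1 z.1 z.2 (fun k => z.2 * primeSum k) N).card : ℝ) := by exact_mod_cast h1
  have h3 : ∑ z ∈ P, ((exc W (1 / 5 + ρ) 1 z.1 z.2 (fun k => z.2 * primeSum k) N).card : ℝ) ≤ 1 / 100000 * N := by
    have h4 : ∀ z ∈ P, ((exc W (1 / 5 + ρ) 1 z.1 z.2 (fun k => z.2 * primeSum k) N).card : ℝ) ≤ N / L := by
      intro z hz
      have := hM z hz N (by
        have : M z ≤ ∑ z ∈ P, M z := single_le_sum (f := M) (fun _ _ => Nat.zero_le _) hz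
        omega) (fun k => z.2 * primeSum k)
      rwa [pow_one, ← hLd] at this
    refine (sum_le_sum h4).trans ?_
    rw [sum_const, nsmul_eq_mul, mul_div_assoc', div_le_iff₀ hL0]
    nlinarith
  linarith

end Pool.Agent.H10.LN
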